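import Mathlib
import Pool.Agent.W745.Fib.Stm
import Pool.Agent.W811.Stu.Stmts3
import Pool.Agent.W816.Stu.BddL
import Pool.Agent.W571.Stu.Rev
import Pool.Agent.W965.Stu.Dist
import Pool.Agent.W965.Stu.PD

/-!
Project FM (helper745): bounded orbits, ratios of derivatives, distortion.
-/

set_option autoImplicit false

namespace Pool.Agent.W753.FM

open Pool.Agent.W745.Fib
open Pool.Agent.W811.Stu

lemma one_pos' : ∀ k, 1 ≤ one k := fun _ => le_refl 1

/-- **(BD)** bounded orbits. -/
theorem bd (h : TBddL) : SBd := by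
  intro lam hlam
  have hδ : lam / 2 ≠ 0 := div_ne_zero hlam two_ne_zero
  obtain ⟨C, hC, hb⟩ := h (lam / 2) hδ
  refine ⟨3 * C + |lam|, by linarith [abs_nonneg lam], ?_⟩
  intro n hn E hE
  have hl := abs_nonneg lam
  have key := hb one one_pos' (lin lam E) (onS_lin lam E)
    (by
      have : (lin lam E).z = 1 := rfl
      rw [this, abs_one]) (n - 1) (by
      rw [orb_y, show n - 1 + 1 = n by omega]; exact hE)
  simp only [orb_eq] at key
  have t0 : |tr lam 0 E| ≤ 1 := by rw [tr_zero, abs_one]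
  -- all indices at most `n`
  have hle : ∀ j, j ≤ n → |tr lam j E| ≤ C := by
    intro j hj
    rcases Nat.eq_zero_or_pos j with h0 | h0
    · rw [h0]; linarith
    · rcases (by omega : j = n ∨ j + 1 ≤ n) with h1 | h1
      · rw [h1]; linarith
      · have := (key (j - 1) (by omega)).2.2.1
        rw [show j - 1 + 1 = j by omega] at this
        exact this
  constructor
  · intro j hj
    rcases (by omega : j ≤ n ∨ j = n + 1) with h1 | h1
    · have := hle j h1
      linarith
    · rcases (by omega : n = 1 ∨ 2 ≤ n) with h2 | h2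
      · rw [h1, h2, show 1 + 1 = 2 by rfl, tr_two]
        rw [h2, tr_one] at hE
        have e : (E - lam) / 2 = E / 2 - lam / 2 := by ring
        rw [e]
        refine (abs_sub _ _).trans ?_
        have : |lam / 2| = |lam| / 2 := by rw [abs_div, abs_two]
        rw [this]
        linarith
      · obtain ⟨m, rfl⟩ : ∃ m, n = m + 2 := ⟨n - 2, by omega⟩
        rw [h1, show m + 2 + 1 = m + 3 by ring, tr_rec]
        refine (abs_sub _ _).trans ?_
        rw [abs_mul, abs_mul, abs_two]
        have a1 := hle (m + 1) (by omega)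
        have a2 := hle m (by omega)
        have : |tr lam (m + 2) E| * |tr lam (m + 1) E| ≤ 1 * C :=
          mul_le_mul hE a1 (abs_nonneg _) zero_le_one
        linarith
  · intro j hj
    rcases Nat.eq_zero_or_pos j with h0 | h0
    · rw [h0]; left; exact t0
    · rcases (by omega : j + 1 = n ∨ j + 1 < n) with h1 | h1
      · right; rw [h1]; exact hE
      · have := (key (j - 1) (by omega)).1
        rw [show j - 1 + 1 = j by omega] at this
        exact this

/-- the word of `stepR (orb d · (j + 1))` -/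
lemma word (d : ℕ → ℕ) (hd : ∀ k, 1 ≤ d k) (j : ℕ) :
    ∃ w : List Mv, (∀ p, stepR (orb d p (j + 1)) = run (Mv.R :: (w ++ [Mv.R])) p) ∧
      ∀ p u, dR (orb d p (j + 1)) (dorb d p u (j + 1)) = drun (Mv.R :: (w ++ [Mv.R])) p u := by
  obtain ⟨w, hw⟩ := Wd_head d hd j
  have e : Mv.R :: (w ++ [Mv.R]) = Wd d (j + 1) ++ List.replicate 1 Mv.R := by
    rw [hw]; simp
  refine ⟨w, fun p => ?_, fun p u => ?_⟩
  · rw [e, run_append, run_Wd, run_rep]; rfl
  · rw [e, drun_append, run_Wd, drun_Wd, drun_rep]; rfl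

/-- the tangent vector along the orbit -/
lemma dorb_eq (lam E : ℝ) (m : ℕ) : dorb one (lin lam E) (fV (lin lam E)) m =
    ⟨-lam * dE lam m E, -lam * dE lam (m + 1) E, -lam * dE lam (m + 2) E⟩ := by
  induction m with
  | zero =>
    rw [dorb, fV_lin, dE_zero, dE_one, dE_two]
    unfold lc
    ext <;> simp only <;> ring
  | succ m ih =>
    have e : dorb one (lin lam E) (fV (lin lam E)) (m + 1) =
        dS (dR (orb one (lin lam E) m) (dorb one (lin lam E) (fV (lin lam E)) m)) := rfl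
    rw [e, ih, orb_eq, dE_rec]
    unfold dS dR
    ext
    · simp only
    · simp only
    · simp only
      ring

/-- **(RT)** ratios of consecutive derivatives. -/
theorem rt (h : TRev) : SRt := by
  intro lam hlam κ hκ0 hκ
  have hδ : lam / 2 ≠ 0 := div_ne_zero hlam two_ne_zero
  have hδ2 : 0 < (lam / 2) ^ 2 := by positivity
  have hcc := cc_sq (lam / 2)
  have hccp := cc_pos (lam / 2)
  have hκ2 : κ ^ 2 < 1 + (lam / 2) ^ 2 := by nlinarith
  set N := |N0 (lam / 2) (κ ^ 2)| with hN
  have hN0 : 0 ≤ N := abs_nonneg _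
  have hNle : N0 (lam / 2) (κ ^ 2) ≤ N := le_abs_self _
  refine ⟨2 + N + 2 * κ * N, by nlinarith [mul_nonneg hκ0 hN0], ?_⟩
  intro n hn E hE
  obtain ⟨m, rfl⟩ : ∃ m, n = m + 3 := ⟨n - 3, by omega⟩
  obtain ⟨w, hw1, hw2⟩ := word one one_pos' m
  have key := h (lam / 2) (κ ^ 2) hδ (by positivity) hκ2 w (lin lam E)
    (stepR (orb one (lin lam E) (m + 1)))
    (dR (orb one (lin lam E) (m + 1)) (dorb one (lin lam E) (fV (lin lam E)) (m + 1)))
    (onS_lin lam E) (by
      have : (lin lam E).z = 1 := rfl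
      rw [this]; linarith) (hw1 _) (hw2 _ _) (by
      rw [orb_eq]
      change (tr lam (m + 1 + 2) E) ^ 2 ≤ κ ^ 2
      rw [show m + 1 + 2 = m + 3 by ring, ← sq_abs]
      exact pow_le_pow_left₀ (abs_nonneg _) hE 2)
  rw [orb_eq, dorb_eq] at key
  obtain ⟨k1, k2⟩ := key
  have e1 : |(-lam * dE lam (m + 1 + 1) E)| ≤ N0 (lam / 2) (κ ^ 2) *
      |(-lam * dE lam (m + 1 + 2) E)| := k1
  have e2 : |2 * tr lam (m + 1 + 1) E * (-lam * dE lam (m + 1 + 2) E) +
      2 * tr lam (m + 1 + 2) E * (-lam * dE lam (m + 1 + 1) E) - (-lam * dE lam (m + 1) E)| ≤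
      (2 * |tr lam (m + 1 + 1) E| + 2 * |tr lam (m + 1 + 2) E| * N0 (lam / 2) (κ ^ 2) +
        N0 (lam / 2) (κ ^ 2)) * |(-lam * dE lam (m + 1 + 2) E)| := k2
  have hl : 0 < |lam| := abs_pos.2 hlam
  rw [abs_mul, abs_mul, abs_neg] at e1
  have e3 : 2 * tr lam (m + 1 + 1) E * (-lam * dE lam (m + 1 + 2) E) +
      2 * tr lam (m + 1 + 2) E * (-lam * dE lam (m + 1 + 1) E) - (-lam * dE lam (m + 1) E) =
      -lam * dE lam (m + 3 + 1) E := by
    have h9 := dE_rec lam (m + 1) E
    rw [show m + 3 + 1 = (m + 1) + 3 by ring, h9]; ring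
  rw [e3, abs_mul, abs_mul, abs_neg] at e2
  have hdn := abs_nonneg (dE lam (m + 3) E)
  have ht := abs_nonneg (tr lam (m + 2) E)
  rw [show m + 1 + 1 = m + 2 by ring, show m + 1 + 2 = m + 3 by ring] at e1 e2
  rw [show m + 3 - 1 = m + 2 by omega]
  have f1 : |dE lam (m + 2) E| ≤ N * |dE lam (m + 3) E| := by
    have : |lam| * |dE lam (m + 2) E| ≤ |lam| * (N * |dE lam (m + 3) E|) := by
      refine e1.trans ?_
      have := mul_le_mul_of_nonneg_right hNle (mul_nonneg hl.le hdn)
      linarith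
    exact le_of_mul_le_mul_left this hl
  have f2 : |dE lam (m + 3 + 1) E| ≤ (2 * |tr lam (m + 2) E| + 2 * κ * N + N) *
      |dE lam (m + 3) E| := by
    have : |lam| * |dE lam (m + 3 + 1) E| ≤ |lam| * ((2 * |tr lam (m + 2) E| + 2 * κ * N + N) *
      |dE lam (m + 3) E|) := by
      refine e2.trans ?_
      have g1 : |tr lam (m + 3) E| * N0 (lam / 2) (κ ^ 2) ≤ κ * N := by
        refine (mul_le_mul_of_nonneg_left hNle (abs_nonneg _)).trans ?_
        exact mul_le_mul_of_nonneg_right hE hN0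
      have g2 : (2 * |tr lam (m + 2) E| + 2 * |tr lam (m + 3) E| * N0 (lam / 2) (κ ^ 2) +
        N0 (lam / 2) (κ ^ 2)) ≤ (2 * |tr lam (m + 2) E| + 2 * κ * N + N) := by linarith
      have := mul_le_mul_of_nonneg_right g2 (mul_nonneg hl.le hdn)
      linarith
    exact le_of_mul_le_mul_left this hl
  constructor
  · refine f1.trans (mul_le_mul_of_nonneg_right ?_ hdn)
    nlinarith [mul_nonneg hκ0 hN0]
  · refine f2.trans (mul_le_mul_of_nonneg_right ?_ hdn)
    have h1 := mul_nonneg hκ0 hN0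
    have h2 := mul_nonneg h1 ht
    have h3 := mul_nonneg hN0 ht
    nlinarith

/-- **(DI)** distortion and bands. -/
theorem di (h : TDist) : SDi := by
  intro lam hlam κ hκ0 hκ
  have hl : 0 < |lam| := abs_pos.2 hlam
  set K := Real.exp (2 * κ / (cc (lam / 2) - κ)) with hK
  have hK1 : 1 ≤ K := by
    rw [hK]
    apply Real.one_le_exp
    apply div_nonneg (by linarith) (by linarith)
  have hκK : 0 ≤ κ * K := by positivity
  refine ⟨K + 2 * κ * K, by nlinarith, ?_⟩
  intro n hn
  obtain ⟨m, rfl⟩ : ∃ m, n = m + 1 := ⟨n - 1, by omega⟩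
  obtain ⟨_, h2⟩ := h lam hlam one one_pos' m
  obtain ⟨h3, h4⟩ := h2 κ hκ0 hκ
  simp only [orb_y] at h3 h4
  have dist : ∀ E E' : ℝ, (∀ e ∈ Set.uIcc E E', |tr lam (m + 1) e| ≤ κ) →
      |dE lam (m + 1) E| ≤ K * |dE lam (m + 1) E'| ∧
      |E - E'| * |dE lam (m + 1) E| ≤ 2 * κ * K := by
    intro E E' he
    obtain ⟨a, b⟩ := h3 E E' he
    rw [Vy_eq hlam, Vy_eq hlam, abs_mul, abs_mul, abs_neg] at a
    rw [Vy_eq hlam, abs_mul, abs_neg] at b
    constructor
    · have : |lam| * |dE lam (m + 1) E| ≤ |lam| * (K * |dE lam (m + 1) E'|) := by linarith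
      exact le_of_mul_le_mul_left this hl
    · have : |lam| * (|E - E'| * |dE lam (m + 1) E|) ≤ |lam| * (2 * κ * K) := by linarith
      exact le_of_mul_le_mul_left this hl
  constructor
  · intro E E' he
    obtain ⟨a, b⟩ := dist E E' he
    refine ⟨?_, ?_, ?_⟩
    · refine a.trans (mul_le_mul_of_nonneg_right ?_ (abs_nonneg _))
      linarith
    · linarith
    · have hb : ∀ x ∈ Set.uIcc E E', ‖dE lam (m + 1) x‖ ≤ K * |dE lam (m + 1) E| := by
        intro x hx
        rw [Real.norm_eq_abs]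
        refine (dist x E ?_).1
        intro e hx2
        apply he
        rw [Set.uIcc_comm] at hx2
        exact Set.uIcc_subset_uIcc_left hx hx2
      have := (convex_uIcc E E').norm_image_sub_le_of_norm_hasDerivWithin_le
        (f := tr lam (m + 1)) (f' := dE lam (m + 1))
        (fun x _ => (hasDeriv_tr lam (m + 1) x).hasDerivWithinAt) hb
        Set.right_mem_uIcc Set.left_mem_uIcc
      rw [Real.norm_eq_abs, Real.norm_eq_abs] at this
      refine this.trans ?_
      have h5 : 0 ≤ |E - E'| * |dE lam (m + 1) E| := by positivity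
      nlinarith
  · exact h4

/-- (BD), no hypothesis -/
theorem sbd : SBd := bd Pool.Agent.W816.Stu.bddL

/-- (RT), no hypothesis -/
theorem srt : SRt := rt Pool.Agent.W571.Stu.rev

/-- (DI), no hypothesis -/
theorem sdi : SDi := di (Pool.Agent.W965.Stu.Dist.dist Pool.Agent.W965.Stu.PD.pd)

end Pool.Agent.W753.FM
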