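import Mathlib
import Pool.Agent.W745.Fib.Stm
import Pool.Agent.W811.Fib.SpecIn
import Pool.Agent.W811.Fib.Cyc

/-!
Project FM (helper745): spectrum of the Fibonacci operator = bounded traces; the frozen set.
-/

set_option autoImplicit false

namespace Pool.Agent.W753.FM

open Pool.Agent.W745.Fib
open Pool.Agent.W811.Fib (Letter IsFix InHull IsOp exists_op X X_zero X_one X_two X_rec Bad BB
  bb_of_not_mem not_mem_of_bb mem_spectrum_of_small not_mem_spectrum_of_bad hopN pc qc)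
open Pool.Agent.W811.Stu (Sp)

/-- the coding of the rotation by the golden mean -/
noncomputable def cod (w : ℝ) (n : ℤ) : Letter :=
  if 1 - (Real.sqrt 5 - 1) / 2 ≤ Int.fract ((n : ℝ) * ((Real.sqrt 5 - 1) / 2) + w)
    then Letter.a else Letter.b

/-- the statement of FM-HULL -/
def Hull : Prop := ∃ u : ℕ → Letter, IsFix u ∧ ∀ w : ℝ,
  InHull u (fun n : ℤ => if 1 - (Real.sqrt 5 - 1) / 2 ≤
    Int.fract ((n : ℝ) * ((Real.sqrt 5 - 1) / 2) + w) then Letter.a else Letter.b)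

/-- the half traces are the trace polynomials -/
lemma X_eq (q E : ℝ) (k : ℕ) : X 1 (-q) (E - q) k = tr q (k + 1) E := by
  revert k
  apply ind3
  · rw [X_zero, tr_one]; ring
  · rw [X_one, tr_two]
  · rw [X_two, tr_rec, tr_zero, tr_one, tr_two]; ring
  · intro n h0 h1 h2
    have h9 := tr_rec q (n + 1) E
    rw [X_rec one_ne_zero, h0, h1, h2, show n + 3 + 1 = n + 1 + 3 by ring, h9,
      show n + 1 + 2 = n + 2 + 1 by ring]

lemma mem_Sp (q E : ℝ) : E ∈ Sp q one ↔ ∀ m, |tr q (m + 1) E| ≤ 1 ∨ |tr q (m + 2) E| ≤ 1 := by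
  unfold Sp
  simp only [Set.mem_ofPred_eq, orb_y]

/-- outside the set of bounded traces the escape condition holds -/
lemma exists_bad {q E : ℝ} (h : E ∉ Sp q one) : ∃ k, Bad (X 1 (-q) (E - q)) k := by
  rw [mem_Sp] at h
  push Not at h
  classical
  have hm := Nat.find_spec h
  have hmin := fun k => Nat.find_min h (m := k)
  set m := Nat.find h with hmdef
  rcases Nat.eq_zero_or_pos m with h0 | h0
  · rw [h0] at hm
    obtain ⟨h1, h2⟩ := hm
    refine ⟨0, ?_⟩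
    rw [Bad, X_eq, X_eq, X_eq]
    have e3 : tr q (0 + 2 + 1) E = 2 * tr q 2 E * tr q 1 E - 1 := by
      rw [show 0 + 2 + 1 = 0 + 3 by ring, tr_rec, tr_zero]
    rw [e3]
    simp only [zero_add] at h1 h2 ⊢
    rw [show (1 + 1 : ℕ) = 2 by rfl]
    have h3 : |tr q 2 E| * |tr q 1 E| < |2 * tr q 2 E * tr q 1 E - 1| := by
      have := abs_sub_abs_le_abs_sub (2 * tr q 2 E * tr q 1 E) 1
      rw [abs_mul, abs_mul, abs_two, abs_one] at this
      nlinarith
    have h5 : 1 < |tr q 2 E| * |tr q 1 E| := by nlinarith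
    have h6 : |tr q 1 E| < |2 * tr q 2 E * tr q 1 E - 1| := by nlinarith
    refine ⟨h2, by linarith, ?_⟩
    nlinarith
  · obtain ⟨k, hk⟩ : ∃ k, m = k + 1 := ⟨m - 1, by omega⟩
    have h3 := hmin k (by omega)
    rw [hk] at hm
    obtain ⟨h1, h2⟩ := hm
    refine ⟨k, ?_⟩
    rw [Bad, X_eq, X_eq, X_eq]
    have h4 : |tr q (k + 1) E| ≤ 1 := by
      by_contra hc
      exact h3 ⟨not_le.1 hc, h1⟩
    refine ⟨h1, h2, ?_⟩
    have e1 : k + 1 + 1 = k + 1 + 1 := rfl
    have h1' : 1 < |tr q (k + 1 + 1) E| := h1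
    have h2' : 1 < |tr q (k + 2 + 1) E| := h2
    nlinarith

/-- the operator as a translate of the tridiagonal operator of the coding -/
lemma fib_eq {q w : ℝ} {T : lp (fun _ : ℤ => ℂ) 2 →L[ℂ] lp (fun _ : ℤ => ℂ) 2}
    (hT : IsFib q w T) : IsOp 1 (-q) (cod w)
      (-(algebraMap ℂ (lp (fun _ : ℤ => ℂ) 2 →L[ℂ] lp (fun _ : ℤ => ℂ) 2) (q : ℂ)) + T) := by
  intro φ n
  have e1 : (-(algebraMap ℂ (lp (fun _ : ℤ => ℂ) 2 →L[ℂ] lp (fun _ : ℤ => ℂ) 2) (q : ℂ)) + T) φ
      = -((q : ℂ) • φ) + T φ := by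
    rw [add_apply, neg_apply,
      Algebra.algebraMap_eq_smul_one]
    rfl
  rw [e1, lp.coeFn_add, Pi.add_apply, lp.coeFn_neg, Pi.neg_apply, lp.coeFn_smul, Pi.smul_apply,
    smul_eq_mul, hT φ n]
  have p1 : ∀ c, pc 1 c = 1 := by intro c; cases c <;> rfl
  rw [p1, p1]
  unfold cod
  split_ifs with h
  · simp only [qc]; push_cast; ring
  · simp only [qc]; push_cast; ring

/-- existence of the Fibonacci operator -/
lemma exists_fib (q w : ℝ) : ∃ T, IsFib q w T := by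
  obtain ⟨H, hH, _⟩ := exists_op 1 (-q) (cod w)
  refine ⟨algebraMap ℂ (lp (fun _ : ℤ => ℂ) 2 →L[ℂ] lp (fun _ : ℤ => ℂ) 2) (q : ℂ) + H, ?_⟩
  intro φ n
  have e1 : (algebraMap ℂ (lp (fun _ : ℤ => ℂ) 2 →L[ℂ] lp (fun _ : ℤ => ℂ) 2) (q : ℂ) + H) φ
      = (q : ℂ) • φ + H φ := by
    rw [add_apply, Algebra.algebraMap_eq_smul_one]
    rfl
  rw [e1, lp.coeFn_add, Pi.add_apply, lp.coeFn_smul, Pi.smul_apply,
    smul_eq_mul, hH φ n]
  have p1 : ∀ c, pc 1 c = 1 := by intro c; cases c <;> rfl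
  rw [p1, p1]
  unfold cod
  split_ifs with h
  · simp only [qc]; push_cast; ring
  · simp only [qc]; push_cast; ring

/-- translation of the spectrum -/
lemma mem_iff {q E : ℝ} {T : lp (fun _ : ℤ => ℂ) 2 →L[ℂ] lp (fun _ : ℤ => ℂ) 2} :
    (E : ℂ) ∈ spectrum ℂ T ↔ ((E - q : ℝ) : ℂ) ∈ spectrum ℂ
      (-(algebraMap ℂ (lp (fun _ : ℤ => ℂ) 2 →L[ℂ] lp (fun _ : ℤ => ℂ) 2) (q : ℂ)) + T) := by
  have h := spectrum.add_mem_iff (R := ℂ) (a := T) (r := ((E - q : ℝ) : ℂ)) (s := (q : ℂ))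
  have e : ((E - q : ℝ) : ℂ) + (q : ℂ) = (E : ℂ) := by push_cast; ring
  rw [e] at h
  exact h

/-- **(OP)** spectrum = bounded traces, for every phase. -/
theorem op (hull : Hull) : SOp := by
  obtain ⟨u, hu, hw⟩ := hull
  intro q hq w T hT
  ext E
  have hin : InHull u (cod w) := hw w
  have hop := fib_eq hT
  rw [Set.mem_ofPred_eq, mem_iff (q := q)]
  constructor
  · intro h
    by_contra hc
    obtain ⟨k, hk⟩ := exists_bad hc
    exact not_mem_spectrum_of_bad one_ne_zero hu hin hop hk h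
  · intro h
    rw [mem_Sp] at h
    refine mem_spectrum_of_small (le_refl 1) hu hin hop ?_
    intro K
    rcases h K with h1 | h1
    · exact ⟨K, le_refl _, by rw [X_eq]; exact h1⟩
    · exact ⟨K + 1, by omega, by rw [X_eq]; exact h1⟩

/-! ### the frozen set -/

lemma win (f : ℤ → ℝ) (a : ℤ) (k : ℕ) (A B : ℤ) (hA : A ≤ a) (hB : a + k ≤ B + 1)
    (h0 : ∀ j, j < a → f j = 0) (h1 : ∀ j, a + k ≤ j → f j = 0) :
    ∑ j ∈ Finset.Icc A B, f j = ∑ n ∈ Finset.range k, f (a + (n : ℤ)) := by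
  have e : ∑ n ∈ Finset.range k, f (a + (n : ℤ)) =
      ∑ j ∈ (Finset.range k).image (fun n : ℕ => a + (n : ℤ)), f j := by
    rw [Finset.sum_image]
    intro x _ y _ h
    have : (x : ℤ) = y := by simpa using h
    exact_mod_cast this
  rw [e]
  symm
  apply Finset.sum_subset
  · intro j hj
    rw [Finset.mem_image] at hj
    obtain ⟨n, hn, rfl⟩ := hj
    rw [Finset.mem_range] at hn
    rw [Finset.mem_Icc]
    constructor <;> omega
  · intro j _ hj
    rcases lt_or_ge j a with h | h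
    · exact h0 j h
    · apply h1
      by_contra hc
      apply hj
      rw [Finset.mem_image]
      refine ⟨(j - a).toNat, ?_, ?_⟩
      · rw [Finset.mem_range]; omega
      · omega

/-- the potential -/
noncomputable def Vq (q : ℝ) (n : ℤ) : ℝ :=
  if 1 - (Real.sqrt 5 - 1) / 2 ≤ Int.fract ((n : ℝ) * ((Real.sqrt 5 - 1) / 2)) then q else 0

lemma hop_eq (q E : ℝ) (m : ℤ) (F : ℕ → ℂ) (n : ℕ) :
    hopN 1 (-q) (E - q) (fun n => cod 0 (m + n)) F n =
      F n + F (n + 2) + ((Vq q (m + 1 + n) - E : ℝ) : ℂ) * F (n + 1) := by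
  have p1 : ∀ c, pc 1 c = 1 := by intro c; cases c <;> rfl
  unfold hopN
  rw [p1, p1]
  have e : qc (-q) (cod 0 (m + ((n + 1 : ℕ) : ℤ))) = Vq q (m + 1 + n) - q := by
    unfold cod Vq
    rw [add_zero, show m + ((n + 1 : ℕ) : ℤ) = m + 1 + n by push_cast; ring]
    split_ifs
    · simp only [qc]; ring
    · simp only [qc]; ring
  simp only
  rw [e]
  push_cast
  ring

/-- **(ID1), (ID2)** the frozen set is the set of bounded traces. -/
theorem fs (hop : SOp) : SId1 ∧ SId2 := by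
  constructor
  · intro q hq E hE
    by_contra hc
    obtain ⟨T, hT⟩ := exists_fib q 0
    have h1 := hop q hq 0 T hT
    have h2 : (E : ℂ) ∉ spectrum ℂ T := by
      intro h
      apply hc
      rw [← h1]
      exact h
    rw [mem_iff (q := q)] at h2
    obtain ⟨ε, hε, hb⟩ := bb_of_not_mem (fib_eq hT) h2
    obtain ⟨N, ψ, hψ, hlt⟩ := hE (Real.sqrt ε) (Real.sqrt_pos.2 hε)
    rw [Real.sq_sqrt hε.le] at hlt
    have hz : ∀ n : ℤ, n < -(N : ℤ) ∨ (N : ℤ) < n → ψ n = 0 := by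
      intro n hn
      apply hψ
      rw [Finset.mem_Icc]
      omega
    have k1 := hb (-(N : ℤ) - 2) (2 * N + 3) (fun n => ((ψ (-(N : ℤ) - 2 + (n : ℤ)) : ℝ) : ℂ))
      (by rw [hz _ (by push_cast; omega)]; simp)
      (by rw [hz _ (by push_cast; omega)]; simp)
      (by intro n hn; rw [hz _ (by omega)]; simp)
    have e1 : ∑ n ∈ Finset.range (2 * N + 3),
        ‖((ψ (-(N : ℤ) - 2 + (n : ℤ)) : ℝ) : ℂ)‖ ^ 2 =
        ∑ n ∈ Finset.Icc (-(N : ℤ)) (N : ℤ), ψ n ^ 2 := by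
      have w1 := win (fun j => ψ j ^ 2) (-(N : ℤ) - 2) (2 * N + 3) (-(N : ℤ) - 2) (N : ℤ)
        (le_refl _) (by push_cast; omega)
        (by intro j hj; rw [hz j (by omega)]; norm_num)
        (by intro j hj; rw [hz j (by push_cast at hj; omega)]; norm_num)
      have w2 : ∑ n ∈ Finset.Icc (-(N : ℤ)) (N : ℤ), ψ n ^ 2 =
          ∑ n ∈ Finset.Icc (-(N : ℤ) - 2) (N : ℤ), ψ n ^ 2 := by
        apply Finset.sum_subset
        · apply Finset.Icc_subset_Icc (by omega) (le_refl _)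
        · intro j _ hj
          rw [hψ j hj]; norm_num
      rw [w2, w1]
      apply Finset.sum_congr rfl
      intro n _
      rw [Complex.norm_real, Real.norm_eq_abs, sq_abs]
    have e2 : ∑ n ∈ Finset.range (2 * N + 3), ‖hopN 1 (-q) (E - q)
        (fun n => cod 0 (-(N : ℤ) - 2 + n))
        (fun n => ((ψ (-(N : ℤ) - 2 + (n : ℤ)) : ℝ) : ℂ)) n‖ ^ 2 =
        ∑ n ∈ Finset.Icc (-(N : ℤ) - 1) ((N : ℤ) + 1),
          (ψ (n + 1) + ψ (n - 1) + Vq q n * ψ n - E * ψ n) ^ 2 := by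
      have w1 := win (fun j => (ψ (j + 1) + ψ (j - 1) + Vq q j * ψ j - E * ψ j) ^ 2)
        (-(N : ℤ) - 1) (2 * N + 3) (-(N : ℤ) - 1) ((N : ℤ) + 1)
        (le_refl _) (by push_cast; omega)
        (by
          intro j hj
          rw [hz j (by omega), hz (j + 1) (by omega), hz (j - 1) (by omega)]; norm_num)
        (by
          intro j hj
          push_cast at hj
          rw [hz j (by omega), hz (j + 1) (by omega), hz (j - 1) (by omega)]; norm_num)
      rw [w1]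
      apply Finset.sum_congr rfl
      intro n _
      rw [hop_eq]
      have g1 : -(N : ℤ) - 2 + ((n + 2 : ℕ) : ℤ) = -(N : ℤ) - 1 + (n : ℤ) + 1 := by
        push_cast; ring
      have g2 : -(N : ℤ) - 2 + ((n + 1 : ℕ) : ℤ) = -(N : ℤ) - 1 + (n : ℤ) := by
        push_cast; ring
      have g3 : -(N : ℤ) - 2 + (n : ℤ) = -(N : ℤ) - 1 + (n : ℤ) - 1 := by ring
      have g4 : -(N : ℤ) - 2 + 1 + (n : ℤ) = -(N : ℤ) - 1 + (n : ℤ) := by ring
      rw [g1, g2, g3, g4]
      have g5 : ((ψ (-(N : ℤ) - 1 + (n : ℤ) - 1) : ℝ) : ℂ) +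
          ((ψ (-(N : ℤ) - 1 + (n : ℤ) + 1) : ℝ) : ℂ) +
          ((Vq q (-(N : ℤ) - 1 + (n : ℤ)) - E : ℝ) : ℂ) * ((ψ (-(N : ℤ) - 1 + (n : ℤ)) : ℝ) : ℂ) =
          ((ψ (-(N : ℤ) - 1 + (n : ℤ) + 1) + ψ (-(N : ℤ) - 1 + (n : ℤ) - 1) +
            Vq q (-(N : ℤ) - 1 + (n : ℤ)) * ψ (-(N : ℤ) - 1 + (n : ℤ)) -
            E * ψ (-(N : ℤ) - 1 + (n : ℤ)) : ℝ) : ℂ) := by
        push_cast; ring
      rw [g5, Complex.norm_real, Real.norm_eq_abs, sq_abs]
    rw [e1] at k1
    have k2 := k1.trans e2.le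
    have k3 : ∑ n ∈ Finset.Icc (-(N : ℤ) - 1) ((N : ℤ) + 1),
          (ψ (n + 1) + ψ (n - 1) + Vq q n * ψ n - E * ψ n) ^ 2 <
        ε * ∑ n ∈ Finset.Icc (-(N : ℤ)) (N : ℤ), ψ n ^ 2 := hlt
    linarith
  · intro q hq E hE
    by_contra hc
    obtain ⟨T, hT⟩ := exists_fib q 0
    have h1 := hop q hq 0 T hT
    have h2 : (E : ℂ) ∈ spectrum ℂ T := by
      have : E ∈ {E : ℝ | (E : ℂ) ∈ spectrum ℂ T} := by rw [h1]; exact hE
      exact this
    rw [mem_iff (q := q)] at h2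
    unfold FS at hc
    rw [Set.mem_ofPred_eq] at hc
    push Not at hc
    obtain ⟨ε, hε, hc⟩ := hc
    refine not_mem_of_bb (fib_eq hT) (ε := ε ^ 2) (by positivity) ?_ h2
    intro m k F h0 h1 hF
    set N : ℕ := m.natAbs + k + 2 with hN
    -- the real valued test vector of `G`
    have key : ∀ G : ℕ → ℝ, G 0 = 0 → G 1 = 0 → (∀ n, k ≤ n → G n = 0) →
        ε ^ 2 * ∑ n ∈ Finset.range k, G n ^ 2 ≤ ∑ n ∈ Finset.range k,
          (G n + G (n + 2) + (Vq q (m + 1 + n) - E) * G (n + 1)) ^ 2 := by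
      intro G g0 g1 gk
      set ψ : ℤ → ℝ := fun j => G (j - m).toNat with hψ
      have z1 : ∀ j, j ≤ m + 1 → ψ j = 0 := by
        intro j hj
        simp only [hψ]
        rcases (by omega : (j - m).toNat = 0 ∨ (j - m).toNat = 1) with h | h
        · rw [h, g0]
        · rw [h, g1]
      have z2 : ∀ j, m + k ≤ j → ψ j = 0 := by
        intro j hj
        simp only [hψ]
        exact gk _ (by omega)
      have z3 : ∀ n : ℤ, n ∉ Finset.Icc (-(N : ℤ)) (N : ℤ) → ψ n = 0 := by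
        intro n hn
        rw [Finset.mem_Icc] at hn
        rcases (by omega : n ≤ m + 1 ∨ m + k ≤ n) with h | h
        · exact z1 n h
        · exact z2 n h
      have c1 := hc N ψ z3
      have e1 : ∑ n ∈ Finset.Icc (-(N : ℤ)) (N : ℤ), ψ n ^ 2 =
          ∑ n ∈ Finset.range k, G n ^ 2 := by
        rw [win (fun j => ψ j ^ 2) m k _ _ (by omega) (by omega)
          (by intro j hj; rw [z1 j (by omega)]; norm_num)
          (by intro j hj; rw [z2 j (by omega)]; norm_num)]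
        apply Finset.sum_congr rfl
        intro n _
        simp only [hψ]
        rw [show (m + (n : ℤ) - m).toNat = n by omega]
      have e2 : ∑ n ∈ Finset.Icc (-(N : ℤ) - 1) ((N : ℤ) + 1),
          (ψ (n + 1) + ψ (n - 1) + Vq q n * ψ n - E * ψ n) ^ 2 = ∑ n ∈ Finset.range k,
          (G n + G (n + 2) + (Vq q (m + 1 + n) - E) * G (n + 1)) ^ 2 := by
        rw [win (fun j => (ψ (j + 1) + ψ (j - 1) + Vq q j * ψ j - E * ψ j) ^ 2) (m + 1) k _ _
          (by omega) (by omega)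
          (by
            intro j hj
            rw [z1 j (by omega), z1 (j + 1) (by omega), z1 (j - 1) (by omega)]; norm_num)
          (by
            intro j hj
            rw [z2 j (by omega), z2 (j + 1) (by omega), z2 (j - 1) (by omega)]; norm_num)]
        apply Finset.sum_congr rfl
        intro n _
        simp only [hψ]
        rw [show (m + 1 + (n : ℤ) + 1 - m).toNat = n + 2 by omega,
          show (m + 1 + (n : ℤ) - 1 - m).toNat = n by omega,
          show (m + 1 + (n : ℤ) - m).toNat = n + 1 by omega]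
        ring
      rw [e1] at c1
      exact c1.trans e2.le
    have kr := key (fun n => (F n).re) (by simp [h0]) (by simp [h1])
      (by intro n hn; simp [hF n hn])
    have ki := key (fun n => (F n).im) (by simp [h0]) (by simp [h1])
      (by intro n hn; simp [hF n hn])
    have e1 : ∀ z : ℂ, ‖z‖ ^ 2 = z.re ^ 2 + z.im ^ 2 := by
      intro z
      rw [← Complex.normSq_eq_norm_sq, Complex.normSq_apply]; ring
    have e2 : ∑ n ∈ Finset.range k, ‖F n‖ ^ 2 =
        ∑ n ∈ Finset.range k, (F n).re ^ 2 + ∑ n ∈ Finset.range k, (F n).im ^ 2 := by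
      rw [← Finset.sum_add_distrib]
      exact Finset.sum_congr rfl (fun n _ => e1 _)
    have e3 : ∑ n ∈ Finset.range k, ‖hopN 1 (-q) (E - q) (fun n => cod 0 (m + n)) F n‖ ^ 2 =
        ∑ n ∈ Finset.range k, ((F n).re + (F (n + 2)).re +
          (Vq q (m + 1 + n) - E) * (F (n + 1)).re) ^ 2 +
        ∑ n ∈ Finset.range k, ((F n).im + (F (n + 2)).im +
          (Vq q (m + 1 + n) - E) * (F (n + 1)).im) ^ 2 := by
      rw [← Finset.sum_add_distrib]
      apply Finset.sum_congr rfl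
      intro n _
      rw [hop_eq, e1]
      simp only [Complex.add_re, Complex.add_im, Complex.re_ofReal_mul, Complex.im_ofReal_mul]
    rw [e2, e3]
    linarith

/-! ### coupling constant zero -/

/-- the tent function -/
noncomputable def tent (M : ℕ) (n : ℤ) : ℝ := max 0 ((2 * M + 1 : ℝ) - |(n : ℝ)|)

lemma tent_lip (M : ℕ) (m n : ℤ) : |tent M m - tent M n| ≤ |(m : ℝ) - n| := by
  unfold tent
  have h := abs_max_sub_max_le_abs ((2 * M + 1 : ℝ) - |(m : ℝ)|) ((2 * M + 1 : ℝ) - |(n : ℝ)|) 0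
  rw [max_comm _ (0 : ℝ), max_comm _ (0 : ℝ)] at h
  refine h.trans ?_
  rw [show (2 * M + 1 : ℝ) - |(m : ℝ)| - ((2 * M + 1 : ℝ) - |(n : ℝ)|) =
    |(n : ℝ)| - |(m : ℝ)| by ring]
  rw [abs_sub_comm (m : ℝ)]
  exact abs_abs_sub_abs_le (n : ℝ) (m : ℝ)

lemma tent_out (M : ℕ) (n : ℤ) (h : n ∉ Finset.Icc (-((2 * M : ℕ) : ℤ)) ((2 * M : ℕ) : ℤ)) :
    tent M n = 0 := by
  unfold tent
  apply max_eq_left
  have h1 : (2 * M + 1 : ℤ) ≤ |n| := by
    rw [Finset.mem_Icc] at h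
    push_cast at h
    rcases abs_cases n with ⟨h2, _⟩ | ⟨h2, _⟩ <;> omega
  have h2 : ((2 * M + 1 : ℤ) : ℝ) ≤ ((|n| : ℤ) : ℝ) := by exact_mod_cast h1
  push_cast at h2
  linarith

/-- **(ID0)** coupling constant zero. -/
theorem id0 : SId0 := by
  intro E hE
  obtain ⟨hE1, hE2⟩ := hE
  set θ := Real.arccos (E / 2) with hθ
  have hcos : Real.cos θ = E / 2 := Real.cos_arccos (by linarith) (by linarith)
  intro ε hε
  -- choice of `M`
  obtain ⟨M, hM⟩ : ∃ M : ℕ, 32 < ε ^ 2 * (M + 1 : ℝ) ^ 2 := by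
    obtain ⟨M, hM⟩ := exists_nat_gt (32 / ε ^ 2)
    refine ⟨M, ?_⟩
    rw [div_lt_iff₀ (by positivity)] at hM
    have : (M : ℝ) ≤ (M + 1 : ℝ) ^ 2 := by nlinarith [(Nat.cast_nonneg M : (0 : ℝ) ≤ M)]
    nlinarith [sq_nonneg ε]
  -- the two candidates
  have hV : ∀ n : ℤ, (if 1 - (Real.sqrt 5 - 1) / 2 ≤
      Int.fract ((n : ℝ) * ((Real.sqrt 5 - 1) / 2)) then (0 : ℝ) else 0) = 0 := by
    intro n; split_ifs <;> rfl
  by_contra hcon
  push Not at hcon
  simp only [hV, zero_mul, add_zero] at hcon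
  have bound : ∀ f : ℤ → ℝ, (∀ n, |f n| ≤ 1) → (∀ n, f (n + 1) + f (n - 1) = E * f n) →
      ε ^ 2 * ∑ n ∈ Finset.Icc (-((2 * M : ℕ) : ℤ)) ((2 * M : ℕ) : ℤ), (tent M n * f n) ^ 2 ≤
        4 * (4 * M + 3) := by
    intro f hf1 hf2
    have h1 := hcon (2 * M) (fun n => tent M n * f n) (by
      intro n hn; rw [tent_out M n hn, zero_mul])
    refine h1.trans ?_
    have h2 : ∀ n ∈ Finset.Icc (-((2 * M : ℕ) : ℤ) - 1) (((2 * M : ℕ) : ℤ) + 1),
        (tent M (n + 1) * f (n + 1) + tent M (n - 1) * f (n - 1) - E * (tent M n * f n)) ^ 2 ≤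
          4 := by
      intro n _
      have e : tent M (n + 1) * f (n + 1) + tent M (n - 1) * f (n - 1) - E * (tent M n * f n) =
          (tent M (n + 1) - tent M n) * f (n + 1) + (tent M (n - 1) - tent M n) * f (n - 1) := by
        linear_combination (tent M n) * hf2 n
      have l1 := tent_lip M (n + 1) n
      have l2 := tent_lip M (n - 1) n
      have l3 : |((n + 1 : ℤ) : ℝ) - n| = 1 := by push_cast; simp
      have l4 : |((n - 1 : ℤ) : ℝ) - n| = 1 := by push_cast; simp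
      rw [l3] at l1
      rw [l4] at l2
      have l5 : |(tent M (n + 1) - tent M n) * f (n + 1)| ≤ 1 := by
        rw [abs_mul]
        exact mul_le_one₀ l1 (abs_nonneg _) (hf1 _)
      have l6 : |(tent M (n - 1) - tent M n) * f (n - 1)| ≤ 1 := by
        rw [abs_mul]
        exact mul_le_one₀ l2 (abs_nonneg _) (hf1 _)
      rw [e]
      have l7 := (abs_add_le ((tent M (n + 1) - tent M n) * f (n + 1))
        ((tent M (n - 1) - tent M n) * f (n - 1))).trans (add_le_add l5 l6)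
      obtain ⟨l8, l9⟩ := abs_le.1 l7
      nlinarith
    refine (Finset.sum_le_sum h2).trans ?_
    rw [Finset.sum_const, Int.card_Icc, nsmul_eq_mul]
    have : (((2 * M : ℕ) : ℤ) + 1 + 1 - (-((2 * M : ℕ) : ℤ) - 1)).toNat = 4 * M + 3 := by
      push_cast; omega
    rw [this]
    push_cast
    linarith
  have b1 := bound (fun n => Real.cos (n * θ)) (fun n => Real.abs_cos_le_one _) (by
    intro n
    push_cast
    rw [show ((n : ℝ) + 1) * θ = n * θ + θ by ring, show ((n : ℝ) - 1) * θ = n * θ - θ by ring,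
      Real.cos_add, Real.cos_sub, hcos]
    ring)
  have b2 := bound (fun n => Real.sin (n * θ)) (fun n => Real.abs_sin_le_one _) (by
    intro n
    push_cast
    rw [show ((n : ℝ) + 1) * θ = n * θ + θ by ring, show ((n : ℝ) - 1) * θ = n * θ - θ by ring,
      Real.sin_add, Real.sin_sub, hcos]
    ring)
  have b3 : ∑ n ∈ Finset.Icc (-((2 * M : ℕ) : ℤ)) ((2 * M : ℕ) : ℤ),
      (tent M n * Real.cos (n * θ)) ^ 2 +
      ∑ n ∈ Finset.Icc (-((2 * M : ℕ) : ℤ)) ((2 * M : ℕ) : ℤ),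
      (tent M n * Real.sin (n * θ)) ^ 2 =
      ∑ n ∈ Finset.Icc (-((2 * M : ℕ) : ℤ)) ((2 * M : ℕ) : ℤ), tent M n ^ 2 := by
    rw [← Finset.sum_add_distrib]
    apply Finset.sum_congr rfl
    intro n _
    have := Real.sin_sq_add_cos_sq ((n : ℝ) * θ)
    linear_combination (tent M n) ^ 2 * this
  have b4 : (M + 1 : ℝ) * (M + 1) ^ 2 ≤
      ∑ n ∈ Finset.Icc (-((2 * M : ℕ) : ℤ)) ((2 * M : ℕ) : ℤ), tent M n ^ 2 := by
    have c1 : ∑ n ∈ Finset.Icc (0 : ℤ) (M : ℤ), tent M n ^ 2 ≤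
        ∑ n ∈ Finset.Icc (-((2 * M : ℕ) : ℤ)) ((2 * M : ℕ) : ℤ), tent M n ^ 2 := by
      apply Finset.sum_le_sum_of_subset_of_nonneg
      · apply Finset.Icc_subset_Icc
        · omega
        · push_cast; omega
      · intro i _ _
        positivity
    refine le_trans ?_ c1
    have c2 : ∀ n ∈ Finset.Icc (0 : ℤ) (M : ℤ), (M + 1 : ℝ) ^ 2 ≤ tent M n ^ 2 := by
      intro n hn
      rw [Finset.mem_Icc] at hn
      apply pow_le_pow_left₀ (by positivity)
      unfold tent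
      apply le_max_of_le_right
      have d1 : (0 : ℝ) ≤ n := by exact_mod_cast hn.1
      have d2 : (n : ℝ) ≤ M := by exact_mod_cast hn.2
      rw [abs_of_nonneg d1]
      linarith
    have c3 := Finset.card_nsmul_le_sum _ _ _ c2
    rw [Int.card_Icc, nsmul_eq_mul] at c3
    have c4 : ((M : ℤ) + 1 - 0).toNat = M + 1 := by omega
    rw [c4] at c3
    push_cast at c3
    exact c3
  have b5 : ε ^ 2 * ((M + 1 : ℝ) * (M + 1) ^ 2) ≤ 8 * (4 * M + 3) := by
    have : ε ^ 2 * ((M + 1 : ℝ) * (M + 1) ^ 2) ≤ ε ^ 2 *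
        ∑ n ∈ Finset.Icc (-((2 * M : ℕ) : ℤ)) ((2 * M : ℕ) : ℤ), tent M n ^ 2 :=
      mul_le_mul_of_nonneg_left b4 (by positivity)
    rw [← b3, mul_add] at this
    linarith
  have b6 : (M + 1 : ℝ) * 32 < (M + 1 : ℝ) * (ε ^ 2 * (M + 1 : ℝ) ^ 2) :=
    mul_lt_mul_of_pos_left hM (by positivity)
  nlinarith

end Pool.Agent.W753.FM
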